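import Mathlib

open Polynomial

namespace Pool.Agent.H289R2.NormLayer

variable (K : Type) [Field K] [Fintype K]

/-- A norm form of degree `j` in `j` variables over a finite field, with the shape of its
restriction to lines. -/
lemma norm_form (j : ℕ) (hj : j ≠ 0) : ∃ N : (Fin j → K) → K, ∀ x u : Fin j → K,
    ∃ g : K[X], g.natDegree ≤ j ∧ (u ≠ 0 → g.coeff j ≠ 0) ∧
      (u = 0 → g = C (N x)) ∧ ∀ s : K, N (x + s • u) = g.eval s := by
  classical
  obtain ⟨p, hp⟩ := CharP.exists K
  have hpp : Fact p.Prime := ⟨CharP.char_is_prime K p⟩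
  have hj' : NeZero j := ⟨hj⟩
  let L := FiniteField.Extension K p j
  let b : Module.Basis (Fin j) K L :=
    Module.finBasisOfFinrankEq K L (FiniteField.finrank_extension K p j)
  let φ : (Fin j → K) →ₗ[K] Matrix (Fin j) (Fin j) K :=
    (Algebra.leftMulMatrix b).toLinearMap.comp b.equivFun.symm.toLinearMap
  have hdet : ∀ u : Fin j → K, u ≠ 0 → (φ u).det ≠ 0 := by
    intro u hu
    have h1 : (φ u).det = Algebra.norm K (b.equivFun.symm u) := by
      rw [Algebra.norm_eq_matrix_det b]
      rfl
    rw [h1, Algebra.norm_ne_zero_iff]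
    exact (LinearEquiv.map_ne_zero_iff b.equivFun.symm).mpr hu
  refine ⟨fun x => (φ x).det, ?_⟩
  intro x u
  by_cases hu : u = 0
  · refine ⟨C ((φ x).det), ?_, ?_, ?_, ?_⟩
    · rw [natDegree_C]
      exact Nat.zero_le _
    · intro h
      exact absurd hu h
    · intro _
      rfl
    · intro s
      simp [hu]
  · refine ⟨Matrix.det ((X : K[X]) • (φ u).map C + (φ x).map C), ?_, ?_, ?_, ?_⟩
    · have := natDegree_det_X_add_C_le (φ u) (φ x)
      simpa using this
    · intro _
      have := coeff_det_X_add_C_card (φ u) (φ x)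
      rw [Fintype.card_fin] at this
      rw [this]
      exact hdet u hu
    · intro h
      exact absurd h hu
    · intro s
      have h1 : eval s (Matrix.det ((X : K[X]) • (φ u).map C + (φ x).map C)) =
          Matrix.det ((evalRingHom s).mapMatrix ((X : K[X]) • (φ u).map C + (φ x).map C)) := by
        rw [← RingHom.map_det]
        rfl
      rw [h1]
      simp only [map_add, map_smul]
      congr 1
      ext a c
      simp only [RingHom.mapMatrix_apply, Matrix.add_apply, Matrix.map_apply, Matrix.smul_apply,
        smul_eq_mul, coe_evalRingHom, eval_mul, eval_X, eval_C]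
      ring

/-- The layered form: nonconstant of degree at most `d` along every line of `K^(1+⋯+d)`. -/
lemma layer (d : ℕ) : ∃ D : ℕ, 2 * D = d * (d + 1) ∧ ∃ F : (Fin D → K) → K,
    ∀ x u : Fin D → K, u ≠ 0 →
    ∃ g : K[X], 1 ≤ g.natDegree ∧ g.natDegree ≤ d ∧ ∀ s : K, F (x + s • u) = g.eval s := by
  induction d with
  | zero =>
    refine ⟨0, rfl, fun _ => 0, ?_⟩
    intro x u hu
    exfalso
    apply hu
    funext i
    exact Fin.elim0 i
  | succ d ih =>
    obtain ⟨D, hD, F, hF⟩ := ih
    obtain ⟨N, hN⟩ := norm_form K (d + 1) (Nat.succ_ne_zero d)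
    refine ⟨D + (d + 1), by linarith [hD, mul_comm d (d + 1)], fun x => F (fun i => x (Fin.castAdd (d + 1) i)) + N (fun i => x (Fin.natAdd D i)),
      ?_⟩
    intro x u hu
    obtain ⟨g, hg1, hg2, hg3, hg4⟩ := hN (fun i => x (Fin.natAdd D i))
      (fun i => u (Fin.natAdd D i))
    by_cases hv : (fun i => u (Fin.castAdd (d + 1) i)) = (0 : Fin D → K)
    · -- the lower block of the direction vanishes
      have hw : (fun i => u (Fin.natAdd D i)) ≠ (0 : Fin (d + 1) → K) := by
        intro hw
        apply hu
        funext i
        refine Fin.addCases (fun i => ?_) (fun i => ?_) i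
        · exact congrFun hv i
        · exact congrFun hw i
      have hc := hg2 hw
      have hdeg : g.natDegree = d + 1 := le_antisymm hg1 (le_natDegree_of_ne_zero hc)
      refine ⟨C (F (fun i => x (Fin.castAdd (d + 1) i))) + g, ?_, ?_, ?_⟩
      · rw [natDegree_C_add, hdeg]
        omega
      · rw [natDegree_C_add, hdeg]
      · intro s
        have h1 : (fun i => (x + s • u) (Fin.castAdd (d + 1) i)) =
            (fun i => x (Fin.castAdd (d + 1) i)) := by
          funext i
          have := congrFun hv i
          simp only [Pi.zero_apply] at this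
          simp [this]
        have h2 : (fun i => (x + s • u) (Fin.natAdd D i)) =
            (fun i => x (Fin.natAdd D i)) + s • (fun i => u (Fin.natAdd D i)) := by
          funext i
          simp
        simp only [h1, h2, hg4 s, eval_add, eval_C]
    · obtain ⟨f, hf1, hf2, hf3⟩ := hF (fun i => x (Fin.castAdd (d + 1) i))
        (fun i => u (Fin.castAdd (d + 1) i)) hv
      have hval : ∀ s : K, F (fun i => (x + s • u) (Fin.castAdd (d + 1) i)) +
          N (fun i => (x + s • u) (Fin.natAdd D i)) = (f + g).eval s := by
        intro s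
        have h1 : (fun i => (x + s • u) (Fin.castAdd (d + 1) i)) =
            (fun i => x (Fin.castAdd (d + 1) i)) + s • (fun i => u (Fin.castAdd (d + 1) i)) := by
          funext i
          simp
        have h2 : (fun i => (x + s • u) (Fin.natAdd D i)) =
            (fun i => x (Fin.natAdd D i)) + s • (fun i => u (Fin.natAdd D i)) := by
          funext i
          simp
        rw [h1, h2, hf3 s, hg4 s, eval_add]
      refine ⟨f + g, ?_, ?_, hval⟩
      · by_cases hw : (fun i => u (Fin.natAdd D i)) = (0 : Fin (d + 1) → K)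
        · rw [hg3 hw, natDegree_add_C]
          exact hf1
        · have hc := hg2 hw
          have hfc : f.coeff (d + 1) = 0 := coeff_eq_zero_of_natDegree_lt (by omega)
          have : (f + g).coeff (d + 1) ≠ 0 := by
            rw [coeff_add, hfc, zero_add]
            exact hc
          have := le_natDegree_of_ne_zero this
          omega
      · exact (natDegree_add_le _ _).trans (max_le (by omega) hg1)

/-- A large set meeting every line of `K^(1+⋯+d)` in at most `d` points. -/
lemma exists_set (d : ℕ) (hd : 1 ≤ d) : ∃ D : ℕ, 2 * D = d * (d + 1) ∧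
    ∃ A : Finset (Fin D → K), Fintype.card K ^ (D - 1) ≤ A.card ∧
    ∀ x u : Fin D → K, u ≠ 0 → ∀ T : Finset K, (∀ s ∈ T, x + s • u ∈ A) → T.card ≤ d := by
  classical
  obtain ⟨D, hD, F, hF⟩ := layer K d
  have htri : 1 ≤ D := by nlinarith
  have hcard : (Finset.univ : Finset K).card * Fintype.card K ^ (D - 1) ≤
      (Finset.univ : Finset (Fin D → K)).card := by
    rw [Finset.card_univ, Finset.card_univ, Fintype.card_fun, Fintype.card_fin, ← pow_succ']
    apply le_of_eq
    congr 1
    omega
  obtain ⟨c, _, hc⟩ := Finset.exists_le_card_fiber_of_mul_le_card_of_maps_to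
    (f := F) (s := Finset.univ) (t := Finset.univ) (fun a _ => Finset.mem_univ _)
    Finset.univ_nonempty hcard
  refine ⟨D, hD, Finset.univ.filter (fun x => F x = c), hc, ?_⟩
  intro x u hu T hT
  obtain ⟨g, hg1, hg2, hg3⟩ := hF x u hu
  have hgc : g - C c ≠ 0 := by
    intro h
    have : g = C c := sub_eq_zero.mp h
    rw [this, natDegree_C] at hg1
    omega
  have hsub : T ⊆ (g - C c).roots.toFinset := by
    intro s hs
    have := hT s hs
    rw [Finset.mem_filter] at this
    rw [Multiset.mem_toFinset, mem_roots hgc, IsRoot.def, eval_sub, eval_C, ← hg3 s, this.2,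
      sub_self]
  calc T.card ≤ (g - C c).roots.toFinset.card := Finset.card_le_card hsub
    _ ≤ (g - C c).roots.card := Multiset.toFinset_card_le _
    _ ≤ (g - C c).natDegree := card_roots' _
    _ = g.natDegree := natDegree_sub_C
    _ ≤ d := hg2

end Pool.Agent.H289R2.NormLayer
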