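import Mathlib
import Pool.Agent.H289R2.NormLayer

open Polynomial

namespace Pool.Agent.H289R2.NormLayerN

variable (K : Type) [Field K] [Fintype K]

/-- For `2 n ≤ m d (d+1)` there is a map `Φ : K^n → K^m` such that along every line some
coordinate of `Φ` is a nonconstant polynomial function of degree at most `d`. -/
lemma layerN (d n m : ℕ) (hd : 1 ≤ d) (hn : 2 * n ≤ m * (d * (d + 1))) :
    ∃ Φ : (Fin n → K) → (Fin m → K), ∀ x u : Fin n → K, u ≠ 0 →
    ∃ i : Fin m, ∃ g : K[X], 1 ≤ g.natDegree ∧ g.natDegree ≤ d ∧
      ∀ s : K, Φ (x + s • u) i = g.eval s := by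
  classical
  obtain ⟨D, hD, F, hF⟩ := NormLayer.layer K d
  have hD1 : 1 ≤ D := by nlinarith
  have hnm : n ≤ m * D := by nlinarith
  let blk : (Fin n → K) → ℕ → (Fin D → K) := fun x i j =>
    if h : i * D + j.val < n then x ⟨i * D + j.val, h⟩ else 0
  refine ⟨fun x i => F (blk x i.val), ?_⟩
  intro x u hu
  obtain ⟨a, ha⟩ : ∃ a, u a ≠ 0 := by
    by_contra hcon
    push Not at hcon
    exact hu (funext hcon)
  have haD : a.val / D < m := by
    rw [Nat.div_lt_iff_lt_mul (by omega)]
    exact lt_of_lt_of_le a.isLt hnm
  have hne : blk u (a.val / D) ≠ 0 := by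
    intro h
    have h1 := congrFun h ⟨a.val % D, Nat.mod_lt _ (by omega)⟩
    have h2 : a.val / D * D + a.val % D = a.val := Nat.div_add_mod' a.val D
    simp only [blk, Pi.zero_apply] at h1
    rw [dif_pos (by rw [h2]; exact a.isLt)] at h1
    apply ha
    rw [← h1]
    congr 1
    apply Fin.ext
    exact h2.symm
  obtain ⟨g, hg1, hg2, hg3⟩ := hF (blk x (a.val / D)) (blk u (a.val / D)) hne
  refine ⟨⟨a.val / D, haD⟩, g, hg1, hg2, ?_⟩
  intro s
  rw [← hg3 s]
  have : blk (x + s • u) (a.val / D) = blk x (a.val / D) + s • blk u (a.val / D) := by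
    funext j
    simp only [blk, Pi.add_apply, Pi.smul_apply, smul_eq_mul]
    split_ifs with h
    · rfl
    · simp
  show F (blk (x + s • u) (a.val / D)) = _
  rw [this]

/-- For every `n` and `m` with `2 n ≤ m d (d+1)`, there is a set of at least `q^(n-m)` points of
`K^n` with at most `d` points on every line. -/
lemma exists_set (d n m : ℕ) (hd : 1 ≤ d) (hn : 2 * n ≤ m * (d * (d + 1))) :
    ∃ A : Finset (Fin n → K), Fintype.card K ^ n ≤ Fintype.card K ^ m * A.card ∧
    ∀ x u : Fin n → K, u ≠ 0 → ∀ T : Finset K, (∀ s ∈ T, x + s • u ∈ A) → T.card ≤ d := by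
  classical
  obtain ⟨Φ, hΦ⟩ := layerN K d n m hd hn
  have hex : ∃ c : Fin m → K, Fintype.card K ^ n ≤
      Fintype.card K ^ m * (Finset.univ.filter (fun x => Φ x = c)).card := by
    by_contra hcon
    push Not at hcon
    have h1 : (Finset.univ : Finset (Fin n → K)).card =
        ∑ c : Fin m → K, (Finset.univ.filter (fun x => Φ x = c)).card :=
      Finset.card_eq_sum_card_fiberwise (fun a _ => Finset.mem_univ _)
    have h2 : ∑ c : Fin m → K, Fintype.card K ^ m *
        (Finset.univ.filter (fun x => Φ x = c)).card < ∑ _c : Fin m → K, Fintype.card K ^ n := by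
      apply Finset.sum_lt_sum_of_nonempty Finset.univ_nonempty
      intro c _
      exact hcon c
    rw [← Finset.mul_sum, ← h1, Finset.card_univ, Fintype.card_fun, Fintype.card_fin,
      Finset.sum_const, Finset.card_univ, Fintype.card_fun, Fintype.card_fin, smul_eq_mul] at h2
    exact lt_irrefl _ h2
  obtain ⟨c, hc⟩ := hex
  refine ⟨Finset.univ.filter (fun x => Φ x = c), hc, ?_⟩
  intro x u hu T hT
  obtain ⟨i, g, hg1, hg2, hg3⟩ := hΦ x u hu
  have hgc : g - C (c i) ≠ 0 := by
    intro h
    have : g = C (c i) := sub_eq_zero.mp h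
    rw [this, natDegree_C] at hg1
    omega
  have hsub : T ⊆ (g - C (c i)).roots.toFinset := by
    intro s hs
    have := hT s hs
    rw [Finset.mem_filter] at this
    rw [Multiset.mem_toFinset, mem_roots hgc, IsRoot.def, eval_sub, eval_C, ← hg3 s, this.2,
      sub_self]
  calc T.card ≤ (g - C (c i)).roots.toFinset.card := Finset.card_le_card hsub
    _ ≤ (g - C (c i)).roots.card := Multiset.toFinset_card_le _
    _ ≤ (g - C (c i)).natDegree := card_roots' _
    _ = g.natDegree := natDegree_sub_C
    _ ≤ d := hg2

/-- A polynomial of degree less than `q - 1` over a field with `q` elements sums to zero. -/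
lemma sum_eval_eq_zero (g : K[X]) (hg : g.natDegree < Fintype.card K - 1) :
    ∑ s : K, g.eval s = 0 := by
  simp_rw [eval_eq_sum_range]
  rw [Finset.sum_comm]
  apply Finset.sum_eq_zero
  intro i hi
  rw [Finset.mem_range] at hi
  rw [← Finset.mul_sum, FiniteField.sum_pow_lt_card_sub_one K i (by omega), mul_zero]


/-- Over a prime field: a set of at least `2^m p^(n-m)` points containing no full line, as soon
as `2 n ≤ m (p-2)(p-1)`. -/
lemma exists_lineFree_prime (p : ℕ) [Fact p.Prime] (n m : ℕ) (hp3 : 3 ≤ p)
    (hn : 2 * n ≤ m * ((p - 2) * (p - 1))) :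
    ∃ A : Finset (Fin n → ZMod p), 2 ^ m * p ^ n ≤ p ^ m * A.card ∧
    ∀ x u : Fin n → ZMod p, u ≠ 0 → ∃ s : ZMod p, x + s • u ∉ A := by
  classical
  have hcp : Fintype.card (ZMod p) = p := ZMod.card p
  have hpp : p - 2 + 1 = p - 1 := by omega
  obtain ⟨Φ, hΦ⟩ := layerN (ZMod p) (p - 2) n m (by omega) (by rw [hpp]; exact hn)
  -- translates of {0,1}^m
  let A : (Fin m → ZMod p) → Finset (Fin n → ZMod p) := fun c =>
    Finset.univ.filter (fun x => ∀ i, Φ x i = c i ∨ Φ x i = c i + 1)
  have hsum : ∑ c : Fin m → ZMod p, (A c).card = p ^ n * 2 ^ m := by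
    have h1 : ∀ c, (A c).card = ∑ x : Fin n → ZMod p,
        if (∀ i, Φ x i = c i ∨ Φ x i = c i + 1) then 1 else 0 := by
      intro c
      rw [Finset.card_filter]
    simp_rw [h1]
    rw [Finset.sum_comm]
    have h2 : ∀ x : Fin n → ZMod p, (∑ c : Fin m → ZMod p,
        if (∀ i, Φ x i = c i ∨ Φ x i = c i + 1) then 1 else 0) = 2 ^ m := by
      intro x
      rw [← Finset.card_filter]
      have h3 : (Finset.univ.filter (fun c : Fin m → ZMod p =>
          ∀ i, Φ x i = c i ∨ Φ x i = c i + 1)) =
          Fintype.piFinset (fun i => ({Φ x i, Φ x i - 1} : Finset (ZMod p))) := by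
        ext c
        rw [Finset.mem_filter, Fintype.mem_piFinset]
        simp only [Finset.mem_univ, true_and, Finset.mem_insert, Finset.mem_singleton]
        constructor
        · intro h i
          rcases h i with h | h
          · left
            exact h.symm
          · right
            rw [h]
            ring
        · intro h i
          rcases h i with h | h
          · left
            exact h.symm
          · right
            rw [h]
            ring
      rw [h3, Fintype.card_piFinset]
      have h4 : ∀ i, ({Φ x i, Φ x i - 1} : Finset (ZMod p)).card = 2 := by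
        intro i
        apply Finset.card_pair
        intro h
        have : (1 : ZMod p) = 0 := by
          have h5 : Φ x i - (Φ x i - 1) = 0 := sub_eq_zero.mpr h
          rw [← h5]
          ring
        exact one_ne_zero this
      simp [h4]
    simp_rw [h2]
    rw [Finset.sum_const, Finset.card_univ, Fintype.card_fun, Fintype.card_fin, hcp, smul_eq_mul]
  have hex : ∃ c, 2 ^ m * p ^ n ≤ p ^ m * (A c).card := by
    by_contra hcon
    push Not at hcon
    have h2 : ∑ c : Fin m → ZMod p, p ^ m * (A c).card <
        ∑ _c : Fin m → ZMod p, 2 ^ m * p ^ n := by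
      apply Finset.sum_lt_sum_of_nonempty Finset.univ_nonempty
      intro c _
      exact hcon c
    rw [← Finset.mul_sum, hsum, Finset.sum_const, Finset.card_univ, Fintype.card_fun,
      Fintype.card_fin, hcp, smul_eq_mul] at h2
    exact absurd h2 (by rw [mul_comm (p ^ n)]; exact lt_irrefl _)
  obtain ⟨c, hc⟩ := hex
  refine ⟨A c, hc, ?_⟩
  intro x u hu
  by_contra hcon
  push Not at hcon
  obtain ⟨i, g, hg1, hg2, hg3⟩ := hΦ x u hu
  have hval : ∀ s : ZMod p, g.eval s = c i ∨ g.eval s = c i + 1 := by
    intro s
    have := hcon s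
    simp only [A, Finset.mem_filter, Finset.mem_univ, true_and] at this
    have := this i
    rwa [hg3 s] at this
  have hs := sum_eval_eq_zero (ZMod p) g (by rw [hcp]; omega)
  let T := Finset.univ.filter (fun s : ZMod p => g.eval s = c i + 1)
  have hs2 : ∑ s : ZMod p, g.eval s = (T.card : ZMod p) := by
    have h1 : ∀ s : ZMod p, g.eval s = c i + (if g.eval s = c i + 1 then 1 else 0) := by
      intro s
      split_ifs with h
      · exact h
      · rw [add_zero]
        exact (hval s).resolve_right h
    calc ∑ s : ZMod p, g.eval s = ∑ s : ZMod p, (c i + (if g.eval s = c i + 1 then 1 else 0)) :=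
          Finset.sum_congr rfl (fun s _ => h1 s)
      _ = (T.card : ZMod p) := by
          rw [Finset.sum_add_distrib, Finset.sum_const, Finset.card_univ, hcp]
          simp [T]
  rw [hs2, ZMod.natCast_eq_zero_iff] at hs
  have hTle : T.card ≤ p := by
    calc T.card ≤ (Finset.univ : Finset (ZMod p)).card := Finset.card_le_card (Finset.filter_subset _ _)
      _ = p := by rw [Finset.card_univ, hcp]
  have hconst : ∀ b : ZMod p, (∀ s, g.eval s = b) → False := by
    intro b hb
    have hgb : g - C b ≠ 0 := by
      intro h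
      have : g = C b := sub_eq_zero.mp h
      rw [this, natDegree_C] at hg1
      omega
    have hsub : (Finset.univ : Finset (ZMod p)) ⊆ (g - C b).roots.toFinset := by
      intro s _
      rw [Multiset.mem_toFinset, mem_roots hgb, IsRoot.def, eval_sub, eval_C, hb s, sub_self]
    have : p ≤ p - 2 := by
      calc p = (Finset.univ : Finset (ZMod p)).card := by rw [Finset.card_univ, hcp]
        _ ≤ (g - C b).roots.toFinset.card := Finset.card_le_card hsub
        _ ≤ (g - C b).roots.card := Multiset.toFinset_card_le _
        _ ≤ (g - C b).natDegree := card_roots' _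
        _ = g.natDegree := natDegree_sub_C
        _ ≤ p - 2 := hg2
    omega
  rcases Nat.eq_zero_or_pos T.card with h0 | h0
  · apply hconst (c i)
    intro s
    refine (hval s).resolve_right ?_
    intro h
    have : s ∈ T := by simp [T, h]
    rw [Finset.card_eq_zero] at h0
    rw [h0] at this
    exact absurd this (Finset.notMem_empty s)
  · have hTp : T.card = p := le_antisymm hTle (Nat.le_of_dvd h0 hs)
    apply hconst (c i + 1)
    intro s
    have hT : T = Finset.univ := by
      apply Finset.eq_univ_of_card
      rw [hTp, hcp]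
    have : s ∈ T := by
      rw [hT]
      exact Finset.mem_univ s
    simpa [T] using this

end Pool.Agent.H289R2.NormLayerN
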